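import Pool.Agent.H.MP_78a38c_al.C

set_option autoImplicit false

namespace Pool.Agent.Results.MP_78a38c_al.No

open Finset MvPolynomial Pool.Agent.HShift Pool.Agent.WConv

/-- `t_i(S / I)`: the largest degree in which `Tor_i(S / I, K)` is nonzero, `⊥` if there is none. -/
noncomputable def tt {n : ℕ} {K : Type} [Field K] (I : Ideal (MvPolynomial (Fin n) K)) (i : ℕ) :
    WithBot ℕ∞ :=
  ⨆ d : {d // BettiQ I i d}, ((d.1 : ℕ∞) : WithBot ℕ∞)

lemma hom (f : T) (h : f ∈ I0) (j : ℕ) : homogeneousComponent j f ∈ I0 := by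
  refine mem_I0.2 ⟨mem_LL.2 fun m hm => mem_LL.1 h.1 m ?_, fun a _ _ => by_contra fun h1 => ?_⟩
  · rw [mem_support_iff, coeff_homogeneousComponent] at hm
    exact mem_support_iff.2 (ite_ne_right_iff.1 hm).2
  · obtain ⟨m, hm, -, h2⟩ := Phi_ne h1
    have h3 := hdeg (homogeneousComponent_isHomogeneous j f) hm
    have h4 : Phi (monomial a 1 * (homogeneousComponent j f - f)) ≠ 0 := by
      rwa [mul_sub, map_sub, h.2, sub_zero]
    obtain ⟨b, hb, -, h5⟩ := Phi_ne h4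
    rw [mem_support_iff, coeff_sub, coeff_homogeneousComponent, if_pos (by omega), sub_self] at hb
    exact hb rfl

lemma low (d : ℕ) (h : BettiQ I0 3 d) : d ≤ 10 := by
  by_contra h0
  obtain ⟨e, rfl⟩ : ∃ e, d = e + 1 + 3 := ⟨d - 4, by omega⟩
  obtain ⟨c, h1, h2, h3⟩ := h
  obtain ⟨w, h4, h5⟩ := stepS (by omega) c h1 fun G => (h2 G).1
  have h6 := isCh_iff.1 h4.kd
  have h7 := isCh_iff.1 h1
  obtain ⟨v, h8, h9⟩ := stepE (e := e) (by omega) (kd w - c)
    (isCh_iff.2 fun F => ⟨(h6 F).1.sub (h7 F).1, fun h => by simp [(h6 F).2 h, (h7 F).2 h]⟩) h5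
    fun G => by rw [kd_sub, kd_kd, zero_sub]; exact neg_mem (h2 G)
  rw [isCh_iff] at h4 h8
  refine h3 ⟨w - v, isCh_iff (e := e).2 fun F =>
    ⟨(h4 F).1.sub (h8 F).1, fun h => by simp [(h4 F).2 h, (h8 F).2 h]⟩, fun F => ?_⟩
  convert neg_mem (h9 F) using 1
  rw [kd_sub, Pi.sub_apply]
  ring

lemma high : BettiQ I0 6 21 := by
  obtain ⟨u, h1, h2, h3⟩ := dual 8 0 rfl rfl (by simp)
  refine ⟨fun F => if F = univ then u else 0, isCh_iff (e := 15).2 fun F => ⟨?_, fun h => ?_⟩,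
    fun G => I0.sum_mem fun j _ => ?_, ?_⟩
  · split_ifs
    · exact h2
    · exact isHomogeneous_zero _ _ _
  · exact if_neg fun h' => h (by simp [h'])
  · rw [mul_assoc]
    refine I0.mul_mem_left _ ?_
    beta_reduce
    split_ifs
    · refine mem_I0.2 ⟨LL.mul_mem_left _ h1, fun a _ _ => by_contra fun h => ?_⟩
      obtain ⟨m, hm, -, h4⟩ := Phi_ne h
      have := hdeg ((isHomogeneous_X _ j).mul h2) hm
      omega
    · simp
  · rintro ⟨w, -, h5⟩
    have h6 := (h5 univ).2 (monomial 0 1)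
    beta_reduce at h6
    rw [kd, compl_univ, sum_empty, if_pos rfl, zero_sub, mul_neg, map_neg, h3 0 rfl rfl] at h6
    simp at h6

theorem result : ¬ ∀ (K : Type) [Field K] (n : ℕ), 1 ≤ n →
    ∀ I : Ideal (MvPolynomial (Fin n) K), (∀ f ∈ I, ∀ j, homogeneousComponent j f ∈ I) →
      ∀ i ≤ n, tt I n ≤ tt I i + tt I (n - i) := fun h => by
  have h1 : tt I0 3 ≤ ((10 : ℕ) : ℕ∞) := iSup_le fun d => by exact_mod_cast low _ d.2
  have h2 : (((21 : ℕ) : ℕ∞) : WithBot ℕ∞) ≤ tt I0 6 :=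
    le_iSup (fun d : {d // BettiQ I0 6 d} => ((d.1 : ℕ∞) : WithBot ℕ∞)) ⟨21, high⟩
  have h3 := h2.trans ((h (ZMod 2) 6 (by decide) I0 hom 3 (by decide)).trans (add_le_add h1 h1))
  exact absurd h3 (by decide)

end Pool.Agent.Results.MP_78a38c_al.No
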